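import Mathlib

/-!
# Hyperbolic structures and quasi-parabolic actions: definitions

The vertices of the Cayley graph `Γ(G,X)` are the elements of `G`; the distance of `g` and `h` in it is
the word length of `g⁻¹ h`. Every point of the Cayley graph is within distance `1/2` of a vertex, so
hyperbolicity is the four point condition for the vertices, and every boundary point is the limit of a
sequence of vertices. As the vertices form one orbit, the limit set of `G` is the whole boundary.
-/

set_option autoImplicit false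

namespace Pool.Agent.V7H56.QP

variable {G : Type} [Group G]

/-- The word length of `g` with respect to `X` (a possibly infinite set). -/
noncomputable def len (X : Set G) (g : G) : ℕ :=
  sInf {n : ℕ | ∃ l : List G, l.length = n ∧ (∀ x ∈ l, x ∈ X ∨ x⁻¹ ∈ X) ∧ l.prod = g}

/-- The distance of two vertices of the Cayley graph. -/
noncomputable def cdist (X : Set G) (g h : G) : ℝ := len X (g⁻¹ * h)

/-- The Gromov product of two vertices, with respect to the vertex `1`. -/
noncomputable def gprod (X : Set G) (g h : G) : ℝ :=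
  (cdist X 1 g + cdist X 1 h - cdist X g h) / 2

/-- The Cayley graph is Gromov hyperbolic (four point condition). -/
def IsHyperbolic (X : Set G) : Prop :=
  ∃ δ : ℝ, ∀ x y z w : G, cdist X x z + cdist X y w ≤
    max (cdist X x y + cdist X z w) (cdist X x w + cdist X y z) + δ

/-- The sequences of vertices that converge to infinity: the Gromov products of their members tend
to infinity. -/
def InfSeq (X : Set G) : Type :=
  {x : ℕ → G // ∀ C : ℝ, ∃ N : ℕ, ∀ m ≥ N, ∀ n ≥ N, C ≤ gprod X (x m) (x n)}

/-- Two sequences converge to the same boundary point. -/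
def Asymp (X : Set G) (x y : InfSeq X) : Prop :=
  ∀ C : ℝ, ∃ N : ℕ, ∀ m ≥ N, ∀ n ≥ N, C ≤ gprod X (x.1 m) (y.1 n)

/-- The Gromov boundary of the Cayley graph. -/
def Boundary (X : Set G) : Type := Quot (Asymp X)

/-- The boundary point `ξ` is fixed by the left multiplication with `g`: for every sequence `x` that
represents `ξ`, the sequence `g * x n` converges to infinity and represents `ξ`. -/
def Fixes (X : Set G) (g : G) (ξ : Boundary X) : Prop :=
  ∀ x : InfSeq X, Quot.mk (Asymp X) x = ξ →
    ∃ y : InfSeq X, (∀ n, y.1 n = g * x.1 n) ∧ Quot.mk (Asymp X) y = ξ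

/-- The action of `G` on the Cayley graph is quasi-parabolic: `G` fixes a boundary point, and the
limit set (which is the whole boundary) is infinite. -/
def IsQuasiParabolic (X : Set G) : Prop :=
  (∃ ξ : Boundary X, ∀ g : G, Fixes X g ξ) ∧ Infinite (Boundary X)

variable (G) in
/-- The generating sets `X` of `G` for which the Cayley graph is hyperbolic and the action of `G` is
quasi-parabolic. -/
structure QPSet where
  /-- the generating set -/
  X : Set G
  /-- it generates the group -/
  gen : Subgroup.closure X = ⊤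
  /-- the Cayley graph is hyperbolic -/
  hyp : IsHyperbolic X
  /-- the action is quasi-parabolic -/
  qp : IsQuasiParabolic X

theorem exists_list {X : Set G} (hX : Subgroup.closure X = ⊤) (g : G) :
    ∃ l : List G, (∀ x ∈ l, x ∈ X ∨ x⁻¹ ∈ X) ∧ l.prod = g := by
  have hg : g ∈ Subgroup.closure X := by rw [hX]; trivial
  induction hg using Subgroup.closure_induction with
  | mem x hx => exact ⟨[x], by intro y hy; rw [List.mem_singleton.1 hy]; exact Or.inl hx, by simp⟩
  | one => exact ⟨[], by simp, by simp⟩
  | mul x y _ _ h1 h2 =>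
    obtain ⟨u, hu, rfl⟩ := h1
    obtain ⟨v, hv, rfl⟩ := h2
    refine ⟨u ++ v, ?_, by rw [List.prod_append]⟩
    intro x hx
    rcases List.mem_append.1 hx with h | h
    · exact hu x h
    · exact hv x h
  | inv x _ h1 =>
    obtain ⟨u, hu, rfl⟩ := h1
    refine ⟨(u.map (·⁻¹)).reverse, ?_, by rw [List.prod_inv_reverse]⟩
    intro x hx
    obtain ⟨y, hy, rfl⟩ := List.mem_map.1 (List.mem_reverse.1 hx)
    rw [inv_inv]
    exact (hu y hy).symm

theorem len_spec {X : Set G} (hX : Subgroup.closure X = ⊤) (g : G) :
    ∃ l : List G, l.length = len X g ∧ (∀ x ∈ l, x ∈ X ∨ x⁻¹ ∈ X) ∧ l.prod = g := by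
  apply Nat.sInf_mem (s := {n : ℕ | ∃ l : List G, l.length = n ∧ (∀ x ∈ l, x ∈ X ∨ x⁻¹ ∈ X) ∧
    l.prod = g})
  obtain ⟨l, hl, h⟩ := exists_list hX g
  exact ⟨l.length, l, rfl, hl, h⟩

theorem len_le {X : Set G} {g : G} (l : List G) (hl : ∀ x ∈ l, x ∈ X ∨ x⁻¹ ∈ X) (h : l.prod = g) :
    len X g ≤ l.length := Nat.sInf_le ⟨l, rfl, hl, h⟩

theorem len_one (X : Set G) : len X 1 = 0 :=
  Nat.le_zero.1 (len_le (X := X) [] (by simp) (by simp))

theorem len_mul {X : Set G} (hX : Subgroup.closure X = ⊤) (g h : G) :
    len X (g * h) ≤ len X g + len X h := by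
  obtain ⟨l, h1, h2, h3⟩ := len_spec hX g
  obtain ⟨m, h4, h5, h6⟩ := len_spec hX h
  rw [← h1, ← h4, ← List.length_append]
  apply len_le
  · intro x hx
    rcases List.mem_append.1 hx with h | h
    · exact h2 x h
    · exact h5 x h
  · rw [List.prod_append, h3, h6]

theorem len_inv_le {X : Set G} (hX : Subgroup.closure X = ⊤) (g : G) : len X g⁻¹ ≤ len X g := by
  obtain ⟨l, h1, h2, h3⟩ := len_spec hX g
  have : (l.map (·⁻¹)).reverse.length = l.length := by simp
  rw [← h1, ← this]
  apply len_le
  · intro x hx
    obtain ⟨y, hy, rfl⟩ := List.mem_map.1 (List.mem_reverse.1 hx)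
    rw [inv_inv]
    exact (h2 y hy).symm
  · rw [← List.prod_inv_reverse, h3]

theorem len_inv {X : Set G} (hX : Subgroup.closure X = ⊤) (g : G) : len X g⁻¹ = len X g := by
  apply le_antisymm (len_inv_le hX g)
  have := len_inv_le hX g⁻¹
  rwa [inv_inv] at this

theorem len_mem {X : Set G} {x : G} (hx : x ∈ X ∨ x⁻¹ ∈ X) : len X x ≤ 1 := by
  apply len_le (X := X) [x]
  · intro y hy
    rw [List.mem_singleton.1 hy]
    exact hx
  · simp

/-- comparison of word lengths -/
theorem len_compare {X Y : Set G} (hX : Subgroup.closure X = ⊤) (hY : Subgroup.closure Y = ⊤) {C : ℕ}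
    (h : ∀ x ∈ X, len Y x ≤ C) (g : G) : len Y g ≤ C * len X g := by
  obtain ⟨l, h1, h2, h3⟩ := len_spec hX g
  rw [← h1, ← h3]
  clear h1 h3
  induction l with
  | nil => simp [len_one]
  | cons x l ih =>
    have h4 := ih (fun y hy => h2 y (List.mem_cons_of_mem _ hy))
    rw [List.prod_cons, List.length_cons]
    have h5 : len Y x ≤ C := by
      rcases h2 x List.mem_cons_self with h' | h'
      · exact h x h'
      · have := h _ h'
        rwa [len_inv hY] at this
    have h6 := len_mul hY x l.prod
    calc len Y (x * l.prod) ≤ len Y x + len Y l.prod := h6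
      _ ≤ C + C * l.length := add_le_add h5 h4
      _ = C * (l.length + 1) := by ring

/-- The preorder of the generating sets: `Y ≤ X` if the word lengths of the elements of `X` with
respect to `Y` are bounded. -/
instance : Preorder (QPSet G) where
  le Y X := ∃ C : ℕ, ∀ x ∈ X.X, len Y.X x ≤ C
  le_refl X := ⟨1, fun x hx => len_mem (Or.inl hx)⟩
  le_trans := by
    rintro Z Y X ⟨C, hC⟩ ⟨D, hD⟩
    refine ⟨C * D, fun x hx => ?_⟩
    exact (len_compare Y.gen Z.gen hC x).trans (Nat.mul_le_mul_left _ (hD x hx))

theorem le_def (Y X : QPSet G) : Y ≤ X ↔ ∃ C : ℕ, ∀ x ∈ X.X, len Y.X x ≤ C := Iff.rfl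

variable (G) in
/-- The poset of the quasi-parabolic hyperbolic structures: two generating sets are identified if each
is below the other one. -/
abbrev HQP : Type := Antisymmetrization (QPSet G) (· ≤ ·)

end Pool.Agent.V7H56.QP
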