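import Pool.Agent.V7H56.QP.Defs

/-!
# General facts on the boundary
-/

set_option autoImplicit false

namespace Pool.Agent.V7H56.QP

variable {G : Type} [Group G]

theorem cdist_comm {X : Set G} (hX : Subgroup.closure X = ⊤) (g h : G) :
    cdist X g h = cdist X h g := by
  unfold cdist
  rw [← len_inv hX (g⁻¹ * h)]
  simp

theorem gprod_comm {X : Set G} (hX : Subgroup.closure X = ⊤) (g h : G) :
    gprod X g h = gprod X h g := by
  unfold gprod
  rw [cdist_comm hX g h]
  ring

theorem cdist_mul (X : Set G) (f g h : G) : cdist X (f * g) (f * h) = cdist X g h := by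
  unfold cdist
  congr 2
  group

theorem cdist_one_mul {X : Set G} (hX : Subgroup.closure X = ⊤) (f g : G) :
    cdist X 1 g - len X f ≤ cdist X 1 (f * g) := by
  unfold cdist
  simp only [inv_one, one_mul]
  have h1 := len_mul hX f⁻¹ (f * g)
  rw [inv_mul_cancel_left, len_inv hX] at h1
  have h2 : ((len X g : ℕ) : ℝ) ≤ ((len X f + len X (f * g) : ℕ) : ℝ) := by exact_mod_cast h1
  push_cast at h2
  linarith

theorem gprod_mul {X : Set G} (hX : Subgroup.closure X = ⊤) (f g h : G) :
    gprod X g h - len X f ≤ gprod X (f * g) (f * h) := by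
  unfold gprod
  rw [cdist_mul]
  have h1 := cdist_one_mul hX f g
  have h2 := cdist_one_mul hX f h
  linarith

theorem gprod_trans {X : Set G} (hX : Subgroup.closure X = ⊤) {δ : ℝ}
    (hδ : ∀ x y z w : G, cdist X x z + cdist X y w ≤
      max (cdist X x y + cdist X z w) (cdist X x w + cdist X y z) + δ) (x y z : G) :
    min (gprod X x y) (gprod X y z) - δ / 2 ≤ gprod X x z := by
  have h := hδ x y z 1
  have e1 := cdist_comm hX y 1
  have e2 := cdist_comm hX z 1
  have e3 := cdist_comm hX x 1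
  have e4 := cdist_comm hX y z
  unfold gprod
  rcases max_cases (cdist X x y + cdist X z 1) (cdist X x 1 + cdist X y z) with ⟨h1, _⟩ | ⟨h1, _⟩
  · rw [h1] at h
    have := min_le_left ((cdist X 1 x + cdist X 1 y - cdist X x y) / 2)
      ((cdist X 1 y + cdist X 1 z - cdist X y z) / 2)
    linarith
  · rw [h1] at h
    have := min_le_right ((cdist X 1 x + cdist X 1 y - cdist X x y) / 2)
      ((cdist X 1 y + cdist X 1 z - cdist X y z) / 2)
    linarith

theorem asymp_equiv {X : Set G} (hX : Subgroup.closure X = ⊤) (hh : IsHyperbolic X) :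
    Equivalence (Asymp X) := by
  obtain ⟨δ, hδ⟩ := hh
  refine ⟨fun x => x.2, ?_, ?_⟩
  · intro x y h C
    obtain ⟨N, hN⟩ := h C
    exact ⟨N, fun m hm n hn => by rw [gprod_comm hX]; exact hN n hn m hm⟩
  · intro x y z h1 h2 C
    obtain ⟨N1, hN1⟩ := h1 (C + δ / 2)
    obtain ⟨N2, hN2⟩ := h2 (C + δ / 2)
    refine ⟨max N1 N2, fun m hm n hn => ?_⟩
    have h3 := hN1 m ((le_max_left _ _).trans hm) (max N1 N2) (le_max_left _ _)
    have h4 := hN2 (max N1 N2) (le_max_right _ _) n ((le_max_right _ _).trans hn)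
    have h5 := gprod_trans hX hδ (x.1 m) (y.1 (max N1 N2)) (z.1 n)
    have h6 := le_min h3 h4
    linarith

theorem mk_eq_iff {X : Set G} (hX : Subgroup.closure X = ⊤) (hh : IsHyperbolic X) (x y : InfSeq X) :
    Quot.mk (Asymp X) x = Quot.mk (Asymp X) y ↔ Asymp X x y := by
  have he := asymp_equiv hX hh
  rw [Quot.eq]
  exact ⟨fun h => (he.eqvGen_iff).1 h, fun h => (he.eqvGen_iff).2 h⟩

/-- a translate of a sequence -/
def transl {X : Set G} (hX : Subgroup.closure X = ⊤) (g : G) (x : InfSeq X) : InfSeq X :=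
  ⟨fun n => g * x.1 n, fun C => by
    obtain ⟨N, hN⟩ := x.2 (C + len X g)
    refine ⟨N, fun m hm n hn => ?_⟩
    have h1 := hN m hm n hn
    have h2 := gprod_mul hX g (x.1 m) (x.1 n)
    linarith⟩

theorem transl_asymp {X : Set G} (hX : Subgroup.closure X = ⊤) (g : G) {x y : InfSeq X}
    (h : Asymp X x y) : Asymp X (transl hX g x) (transl hX g y) := by
  intro C
  obtain ⟨N, hN⟩ := h (C + len X g)
  refine ⟨N, fun m hm n hn => ?_⟩
  have h1 := hN m hm n hn
  have h2 := gprod_mul hX g (x.1 m) (y.1 n)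
  change C ≤ gprod X (g * x.1 m) (g * y.1 n)
  linarith

/-- a criterion for quasi-parabolic actions -/
theorem qp_of {X : Set G} (hX : Subgroup.closure X = ⊤) (hh : IsHyperbolic X) (w : InfSeq X)
    (hw : ∀ g : G, Asymp X (transl hX g w) w) (y : ℕ → InfSeq X)
    (hy : ∀ i j, Asymp X (y i) (y j) → i = j) : IsQuasiParabolic X := by
  have he := asymp_equiv hX hh
  refine ⟨⟨Quot.mk _ w, ?_⟩, ?_⟩
  · intro g x hx
    have h1 := (mk_eq_iff hX hh _ _).1 hx
    refine ⟨transl hX g x, fun n => rfl, ?_⟩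
    rw [mk_eq_iff hX hh]
    exact he.trans (transl_asymp hX g h1) (hw g)
  · apply Infinite.of_injective (fun n : ℕ => Quot.mk (Asymp X) (y n))
    intro i j hij
    exact hy i j ((mk_eq_iff hX hh _ _).1 hij)

end Pool.Agent.V7H56.QP
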