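import Pool.Agent.V7H56.QP.Defs

/-!
# The wreath product `ℤ ≀ ℤ`
-/

set_option autoImplicit false

namespace Pool.Agent.V7H56.QP

/-- The elements of the restricted wreath product `ℤ ≀ ℤ`: a finitely supported function
`lamp : ℤ → ℤ` and an integer `pos`. -/
@[ext]
structure ZwrZ where
  /-- the element of the base group -/
  lamp : ℤ →₀ ℤ
  /-- the element of the acting group -/
  pos : ℤ

namespace ZwrZ

/-- the translate of `a` by `n`: its value at `i` is the value of `a` at `i - n` -/
noncomputable def shift (n : ℤ) (a : ℤ →₀ ℤ) : ℤ →₀ ℤ := Finsupp.mapDomain (fun i => i + n) a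

theorem shift_apply (n : ℤ) (a : ℤ →₀ ℤ) (i : ℤ) : shift n a i = a (i - n) := by
  unfold shift
  have h : Function.Injective (fun i : ℤ => i + n) := add_left_injective n
  have := Finsupp.mapDomain_apply h a (i - n)
  simpa using this

theorem shift_zero (a : ℤ →₀ ℤ) : shift 0 a = a := by
  ext i; rw [shift_apply, sub_zero]

theorem shift_shift (m n : ℤ) (a : ℤ →₀ ℤ) : shift m (shift n a) = shift (m + n) a := by
  ext i; rw [shift_apply, shift_apply, shift_apply]; congr 1; ring

theorem shift_add (n : ℤ) (a b : ℤ →₀ ℤ) : shift n (a + b) = shift n a + shift n b := by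
  ext i; simp [shift_apply]

theorem shift_neg (n : ℤ) (a : ℤ →₀ ℤ) : shift n (-a) = -shift n a := by
  ext i; simp [shift_apply]

theorem shift_z (n : ℤ) : shift n 0 = 0 := by
  ext i; simp [shift_apply]

/-- `(a, k) (b, l) = (a + (b shifted by k), k + l)` -/
noncomputable instance : Mul ZwrZ := ⟨fun g h => ⟨g.lamp + shift g.pos h.lamp, g.pos + h.pos⟩⟩
instance : One ZwrZ := ⟨⟨0, 0⟩⟩
noncomputable instance : Inv ZwrZ := ⟨fun g => ⟨-shift (-g.pos) g.lamp, -g.pos⟩⟩

theorem mul_lamp (g h : ZwrZ) : (g * h).lamp = g.lamp + shift g.pos h.lamp := rfl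
theorem mul_pos (g h : ZwrZ) : (g * h).pos = g.pos + h.pos := rfl
theorem one_lamp : (1 : ZwrZ).lamp = 0 := rfl
theorem one_pos : (1 : ZwrZ).pos = 0 := rfl
theorem inv_lamp (g : ZwrZ) : (g⁻¹).lamp = -shift (-g.pos) g.lamp := rfl
theorem inv_pos (g : ZwrZ) : (g⁻¹).pos = -g.pos := rfl

noncomputable instance : Group ZwrZ where
  mul_assoc a b c := by
    apply ZwrZ.ext
    · rw [mul_lamp, mul_lamp, mul_lamp, mul_lamp, mul_pos, shift_add, shift_shift, add_assoc]
    · rw [mul_pos, mul_pos, mul_pos, mul_pos, add_assoc]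
  one_mul a := by
    apply ZwrZ.ext
    · rw [mul_lamp, one_lamp, one_pos, shift_zero, zero_add]
    · rw [mul_pos, one_pos, zero_add]
  mul_one a := by
    apply ZwrZ.ext
    · rw [mul_lamp, one_lamp, shift_z, add_zero]
    · rw [mul_pos, one_pos, add_zero]
  inv_mul_cancel a := by
    apply ZwrZ.ext
    · rw [mul_lamp, inv_lamp, inv_pos, one_lamp, neg_add_cancel]
    · rw [mul_pos, inv_pos, one_pos, neg_add_cancel]

/-- the generator of the acting group -/
noncomputable def t : ZwrZ := ⟨0, 1⟩

/-- the elements of the base group -/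
def base (a : ℤ →₀ ℤ) : ZwrZ := ⟨a, 0⟩

theorem t_zpow (n : ℤ) : t ^ n = ⟨0, n⟩ := by
  induction n using Int.induction_on with
  | zero => rfl
  | succ n ih =>
    rw [zpow_add_one, ih]
    apply ZwrZ.ext
    · rw [mul_lamp, t, shift_z, add_zero]
    · rw [mul_pos, t]
  | pred n ih =>
    rw [zpow_sub_one, ih]
    apply ZwrZ.ext
    · rw [mul_lamp, inv_lamp, t, shift_z, neg_zero, shift_z, add_zero]
    · rw [mul_pos, inv_pos, t]; ring

theorem base_add (a b : ℤ →₀ ℤ) : base (a + b) = base a * base b := by
  apply ZwrZ.ext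
  · rw [mul_lamp, base, base, base, shift_zero]
  · rw [mul_pos, base, base, base, add_zero]

theorem eq_mul (g : ZwrZ) : g = base g.lamp * t ^ g.pos := by
  apply ZwrZ.ext
  · rw [mul_lamp, t_zpow, shift_z, add_zero, base]
  · rw [mul_pos, t_zpow, base, zero_add]

/-- The group is generated by `t` and the function that is one at zero. -/
theorem closure_eq_top {X : Set ZwrZ} (ht : t ∈ Subgroup.closure X)
    (ha : base (Finsupp.single 0 1) ∈ Subgroup.closure X) : Subgroup.closure X = ⊤ := by
  rw [eq_top_iff]
  rintro g -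
  have h1 : ∀ n : ℤ, base (Finsupp.single n 1) ∈ Subgroup.closure X := by
    intro n
    have : base (Finsupp.single n 1) = t ^ n * base (Finsupp.single 0 1) * (t ^ n)⁻¹ := by
      rw [t_zpow]
      apply ZwrZ.ext
      · rw [mul_lamp, mul_lamp, inv_lamp, shift_z, neg_zero, shift_z, add_zero, zero_add, base, base]
        ext i
        rw [shift_apply]
        simp only [Finsupp.single_apply]
        by_cases h : n = i
        · simp [h]
        · have : ¬ (0 : ℤ) = i - n := by omega
          simp [h, this]
      · rw [mul_pos, mul_pos, inv_pos, base, base]; simp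
    rw [this]
    exact mul_mem (mul_mem (zpow_mem ht n) ha) (inv_mem (zpow_mem ht n))
  have h2 : ∀ (n : ℤ) (c : ℤ), base (Finsupp.single n c) ∈ Subgroup.closure X := by
    intro n c
    induction c using Int.induction_on with
    | zero =>
      have : base (Finsupp.single n 0) = 1 := by
        rw [Finsupp.single_zero]; rfl
      rw [this]; exact one_mem _
    | succ c ih =>
      rw [Finsupp.single_add, base_add]
      exact mul_mem ih (h1 n)
    | pred c ih =>
      have : base (Finsupp.single n (-(c : ℤ) - 1)) =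
          base (Finsupp.single n (-(c : ℤ))) * (base (Finsupp.single n 1))⁻¹ := by
        rw [eq_mul_inv_iff_mul_eq, ← base_add, ← Finsupp.single_add]
        congr 2
        ring
      rw [this]
      exact mul_mem ih (inv_mem (h1 n))
  have h3 : ∀ a : ℤ →₀ ℤ, base a ∈ Subgroup.closure X := by
    intro a
    induction a using Finsupp.induction with
    | zero => exact one_mem _
    | single_add n c a _ _ ih =>
      rw [base_add]
      exact mul_mem (h2 n c) ih
  rw [eq_mul g]
  exact mul_mem (h3 _) (zpow_mem ht _)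

instance : Group.FG ZwrZ := by
  classical
  refine ⟨⟨{t, base (Finsupp.single 0 1)}, ?_⟩⟩
  apply closure_eq_top
  · apply Subgroup.subset_closure; simp
  · apply Subgroup.subset_closure; simp

end ZwrZ

end Pool.Agent.V7H56.QP
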