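import Pool.Agent.V7H56.QP.Gen
import Pool.Agent.V7H56.QP.Lamp

/-!
# The confining subsets
-/

set_option autoImplicit false

namespace Pool.Agent.V7H56.QP

open ZwrZ

/-- the exponents: a nondecreasing function, zero on the negative integers, unbounded -/
structure Ex where
  /-- the function -/
  e : ℤ → ℕ
  mono : Monotone e
  zero : ∀ m ≤ 0, e m = 0
  unb : ∀ B : ℕ, ∃ m, B < e m

/-- membership in the translate of the confining subset -/
def QN (E : Ex) (N : ℤ) (a : ℤ →₀ ℤ) : Prop := ∀ i : ℤ, (2 : ℤ) ^ E.e (-i - N) ∣ a i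

variable (E : Ex)

theorem QN.mono {E : Ex} {N M : ℤ} (h : N ≤ M) {a : ℤ →₀ ℤ} (ha : QN E N a) : QN E M a := by
  intro i
  exact (pow_dvd_pow 2 (E.mono (by linarith))).trans (ha i)

theorem QN.add {E : Ex} {N : ℤ} {a b : ℤ →₀ ℤ} (ha : QN E N a) (hb : QN E N b) :
    QN E N (a + b) := fun i => by
  rw [Finsupp.add_apply]; exact dvd_add (ha i) (hb i)

theorem QN.neg {E : Ex} {N : ℤ} {a : ℤ →₀ ℤ} (ha : QN E N a) : QN E N (-a) := fun i => by
  rw [Finsupp.neg_apply]; exact (dvd_neg).2 (ha i)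

theorem QN_zero (N : ℤ) : QN E N 0 := fun i => by simp

theorem QN_exists (a : ℤ →₀ ℤ) : ∃ N : ℤ, 0 ≤ N ∧ QN E N a := by
  obtain ⟨B, hB⟩ : ∃ B : ℤ, ∀ i ∈ a.support, -B ≤ i := by
    obtain ⟨b, hb⟩ := a.support.finite_toSet.bddBelow
    exact ⟨-b, fun i hi => by rw [neg_neg]; exact hb hi⟩
  refine ⟨max B 0, le_max_right _ _, fun i => ?_⟩
  by_cases hi : a i = 0
  · rw [hi]; exact dvd_zero _
  · have h1 := hB i (Finsupp.mem_support_iff.2 hi)
    rw [E.zero _ (by have := le_max_left B 0; linarith), pow_zero]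
    exact one_dvd _

theorem QN_shift {N m : ℤ} {a : ℤ →₀ ℤ} : QN E N (shift m a) ↔ QN E (N + m) a := by
  constructor
  · intro h i
    have := h (i + m)
    rw [shift_apply, add_sub_cancel_right] at this
    convert this using 3
    ring
  · intro h i
    rw [shift_apply]
    have := h (i - m)
    convert this using 3
    ring

/-- the set whose minimum is the meeting level of two elements -/
def lv (g h : ZwrZ) : Set ℤ := {N : ℤ | -g.pos ≤ N ∧ -h.pos ≤ N ∧ QN E N (g.lamp - h.lamp)}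

theorem lv_nonempty (g h : ZwrZ) : (lv E g h).Nonempty := by
  obtain ⟨N, _, hN⟩ := QN_exists E (g.lamp - h.lamp)
  refine ⟨max N (max (-g.pos) (-h.pos)), ?_, ?_, hN.mono (le_max_left _ _)⟩
  · exact (le_max_left _ _).trans (le_max_right _ _)
  · exact (le_max_right _ _).trans (le_max_right _ _)

theorem lv_bdd (g h : ZwrZ) : BddBelow (lv E g h) := ⟨-g.pos, fun _ hN => hN.1⟩

/-- the meeting level -/
noncomputable def nn (g h : ZwrZ) : ℤ := sInf (lv E g h)

theorem nn_mem (g h : ZwrZ) : nn E g h ∈ lv E g h := Int.csInf_mem (lv_nonempty E g h) (lv_bdd E g h)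

theorem nn_le {g h : ZwrZ} {N : ℤ} (hN : N ∈ lv E g h) : nn E g h ≤ N := csInf_le (lv_bdd E g h) hN

theorem nn_comm (g h : ZwrZ) : nn E g h = nn E h g := by
  unfold nn
  congr 1
  ext N
  have : QN E N (g.lamp - h.lamp) ↔ QN E N (h.lamp - g.lamp) := by
    constructor
    · intro h1
      have := h1.neg
      rwa [neg_sub] at this
    · intro h1
      have := h1.neg
      rwa [neg_sub] at this
  exact ⟨fun ⟨a, b, c⟩ => ⟨b, a, this.1 c⟩, fun ⟨a, b, c⟩ => ⟨b, a, this.2 c⟩⟩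

theorem nn_um (g f h : ZwrZ) : nn E g h ≤ max (nn E g f) (nn E f h) := by
  apply nn_le
  obtain ⟨a1, a2, a3⟩ := nn_mem E g f
  obtain ⟨b1, b2, b3⟩ := nn_mem E f h
  refine ⟨a1.trans (le_max_left _ _), b2.trans (le_max_right _ _), ?_⟩
  have : g.lamp - h.lamp = (g.lamp - f.lamp) + (f.lamp - h.lamp) := by abel
  rw [this]
  exact (a3.mono (le_max_left _ _)).add (b3.mono (le_max_right _ _))

theorem nn_self_le (g h : ZwrZ) : -g.pos ≤ nn E g h := (nn_mem E g h).1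
theorem nn_self_le' (g h : ZwrZ) : -h.pos ≤ nn E g h := (nn_mem E g h).2.1

theorem nn_mul (f g h : ZwrZ) : nn E (f * g) (f * h) = nn E g h - f.pos := by
  have key : ∀ N : ℤ, N ∈ lv E (f * g) (f * h) ↔ N + f.pos ∈ lv E g h := by
    intro N
    have e1 : (f * g).lamp - (f * h).lamp = shift f.pos (g.lamp - h.lamp) := by
      rw [mul_lamp, mul_lamp, sub_eq_add_neg g.lamp, shift_add, shift_neg]
      abel
    unfold lv
    simp only [Set.mem_ofPred_eq, e1, QN_shift, mul_pos]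
    constructor
    · rintro ⟨a, b, c⟩; exact ⟨by linarith, by linarith, c⟩
    · rintro ⟨a, b, c⟩; exact ⟨by linarith, by linarith, c⟩
  apply le_antisymm
  · apply nn_le
    rw [key, sub_add_cancel]
    exact nn_mem E g h
  · have h1 : nn E (f * g) (f * h) + f.pos ∈ lv E g h := (key _).1 (nn_mem E _ _)
    have := nn_le E h1
    linarith

/-- the distance in the tree -/
noncomputable def rho (g h : ZwrZ) : ℤ := 2 * nn E g h + g.pos + h.pos

theorem rho_mul (f g h : ZwrZ) : rho E (f * g) (f * h) = rho E g h := by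
  unfold rho
  rw [nn_mul, mul_pos, mul_pos]
  ring

theorem rho_tri (g f h : ZwrZ) : rho E g h ≤ rho E g f + rho E f h := by
  unfold rho
  have h1 := nn_um E g f h
  have h2 := nn_self_le' E g f
  have h3 := nn_self_le E f h
  rcases max_cases (nn E g f) (nn E f h) with ⟨h4, _⟩ | ⟨h4, _⟩ <;> rw [h4] at h1 <;> linarith

theorem rho_four (x y z w : ZwrZ) :
    rho E x z + rho E y w ≤ max (rho E x y + rho E z w) (rho E x w + rho E y z) := by
  have a1 := nn_um E x y z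
  have a2 := nn_um E x w z
  have a3 := nn_um E y x w
  have a4 := nn_um E y z w
  have b1 := nn_comm E y x
  have b2 := nn_comm E w z
  rw [b1] at a3
  rw [b2] at a2
  unfold rho
  omega

theorem nn_one_one : nn E 1 1 = 0 := by
  apply le_antisymm
  · apply nn_le
    refine ⟨by simp [ZwrZ.one_pos], by simp [ZwrZ.one_pos], ?_⟩
    rw [sub_self]
    exact QN_zero E 0
  · have := nn_self_le E 1 1
    rwa [ZwrZ.one_pos, neg_zero] at this

/-- the generating set -/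
def XX : Set ZwrZ := {g | g = t ∨ (g.pos = 0 ∧ QN E 0 g.lamp)}

theorem t_mem : t ∈ XX E := Or.inl rfl

theorem XX_gen : Subgroup.closure (XX E) = ⊤ := by
  apply closure_eq_top
  · exact Subgroup.subset_closure (t_mem E)
  · apply Subgroup.subset_closure
    right
    refine ⟨rfl, fun i => ?_⟩
    by_cases hi : i = 0
    · subst hi
      rw [E.zero _ (by norm_num), pow_zero]
      exact one_dvd _
    · have : (base (Finsupp.single 0 1)).lamp i = 0 := by
        change (Finsupp.single (0 : ℤ) (1 : ℤ)) i = 0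
        exact Finsupp.single_eq_of_ne (by simpa using hi)
      rw [this]
      exact dvd_zero _

theorem rho_one_X {x : ZwrZ} (hx : x ∈ XX E ∨ x⁻¹ ∈ XX E) : rho E 1 x ≤ 1 := by
  have h1 : ∀ x ∈ XX E, rho E 1 x ≤ 1 := by
    rintro x (rfl | ⟨h1, h2⟩)
    · have : nn E 1 t ≤ 0 := by
        apply nn_le
        refine ⟨by simp [ZwrZ.one_pos], by simp [t], ?_⟩
        have : (1 : ZwrZ).lamp - t.lamp = 0 := by simp [one_lamp, t]
        rw [this]
        exact QN_zero E 0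
      unfold rho
      have h3 : t.pos = 1 := rfl
      rw [ZwrZ.one_pos, h3]
      linarith
    · have : nn E 1 x ≤ 0 := by
        apply nn_le
        refine ⟨by simp [ZwrZ.one_pos], by simp [h1], ?_⟩
        rw [one_lamp, zero_sub]
        exact h2.neg
      unfold rho
      rw [ZwrZ.one_pos, h1]
      linarith
  rcases hx with h | h
  · exact h1 x h
  · have h2 := h1 _ h
    have h3 : rho E 1 x = rho E 1 x⁻¹ := by
      have h4 := rho_mul E x 1 x⁻¹
      rw [mul_one, mul_inv_cancel] at h4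
      rw [← h4]
      unfold rho
      rw [nn_comm]
      ring
    rw [h3]
    exact h2

theorem rho_self (g : ZwrZ) : rho E g g = 0 := by
  have := rho_mul E g 1 1
  rw [mul_one] at this
  rw [this]
  unfold rho
  rw [nn_one_one, ZwrZ.one_pos]
  ring

theorem rho_le_len (g : ZwrZ) : rho E 1 g ≤ len (XX E) g := by
  obtain ⟨l, h1, h2, h3⟩ := len_spec (XX_gen E) g
  rw [← h1, ← h3]
  clear h1 h3
  induction l with
  | nil => simp [rho_self]
  | cons x l ih =>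
    have h4 := ih (fun y hy => h2 y (List.mem_cons_of_mem _ hy))
    have h5 := rho_one_X E (h2 x List.mem_cons_self)
    have h6 := rho_tri E 1 x (x * l.prod)
    have h7 := rho_mul E x 1 l.prod
    rw [mul_one] at h7
    rw [List.prod_cons, List.length_cons]
    push_cast
    linarith

theorem len_pow_t (n : ℕ) : len (XX E) (t ^ n) ≤ n := by
  have := len_le (X := XX E) (List.replicate n t) (by
    intro x hx
    rw [List.eq_of_mem_replicate hx]
    exact Or.inl (t_mem E)) (List.prod_replicate n t)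
  rwa [List.length_replicate] at this

theorem len_le_rho (g : ZwrZ) : (len (XX E) g : ℤ) ≤ rho E 1 g + 1 := by
  obtain ⟨h1, h2, h3⟩ := nn_mem E 1 g
  rw [ZwrZ.one_pos, neg_zero] at h1
  set N := nn E 1 g with hN
  obtain ⟨n, hn⟩ := Int.eq_ofNat_of_zero_le h1
  obtain ⟨m, hm⟩ := Int.eq_ofNat_of_zero_le (show 0 ≤ N + g.pos by linarith)
  have hq : base (shift N g.lamp) ∈ XX E := by
    right
    refine ⟨rfl, ?_⟩
    change QN E 0 (shift N g.lamp)
    rw [QN_shift, zero_add]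
    rw [one_lamp, zero_sub] at h3
    have := h3.neg
    rwa [neg_neg] at this
  have hg : g = (t ^ n)⁻¹ * base (shift N g.lamp) * t ^ m := by
    have e1 : (t ^ n : ZwrZ) = ⟨0, n⟩ := by rw [← t_zpow, zpow_natCast]
    have e2 : (t ^ m : ZwrZ) = ⟨0, m⟩ := by rw [← t_zpow, zpow_natCast]
    rw [e1, e2]
    apply ZwrZ.ext
    · rw [mul_lamp, mul_lamp, inv_lamp, inv_pos, shift_z, shift_z, neg_zero, add_zero, zero_add,
        base, shift_shift, hn]
      simp [shift_zero]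
    · rw [mul_pos, mul_pos, inv_pos, base]
      change g.pos = -(n : ℤ) + 0 + m
      linarith
  have l1 := len_mul (XX_gen E) ((t ^ n)⁻¹ * base (shift N g.lamp)) (t ^ m)
  have l2 := len_mul (XX_gen E) (t ^ n)⁻¹ (base (shift N g.lamp))
  rw [len_inv (XX_gen E)] at l2
  have l3 := len_pow_t E n
  have l4 := len_pow_t E m
  have l5 := len_mem (X := XX E) (Or.inl hq)
  rw [← hg] at l1
  have l6 : len (XX E) g ≤ n + 1 + m := by omega
  have l7 : (len (XX E) g : ℤ) ≤ n + 1 + m := by exact_mod_cast l6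
  unfold rho
  rw [ZwrZ.one_pos, ← hN]
  linarith

theorem cdist_ge (g h : ZwrZ) : (rho E g h : ℝ) ≤ cdist (XX E) g h := by
  unfold cdist
  have h1 := rho_le_len E (g⁻¹ * h)
  have h2 := rho_mul E g⁻¹ g h
  rw [inv_mul_cancel] at h2
  rw [h2] at h1
  exact_mod_cast h1

theorem cdist_le (g h : ZwrZ) : cdist (XX E) g h ≤ rho E g h + 1 := by
  unfold cdist
  have h1 := len_le_rho E (g⁻¹ * h)
  have h2 := rho_mul E g⁻¹ g h
  rw [inv_mul_cancel] at h2
  rw [h2] at h1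
  exact_mod_cast h1

theorem XX_hyp : IsHyperbolic (XX E) := by
  refine ⟨2, fun x y z w => ?_⟩
  have h1 := cdist_le E x z
  have h2 := cdist_le E y w
  have h3 : ((rho E x z + rho E y w : ℤ) : ℝ) ≤
      ((max (rho E x y + rho E z w) (rho E x w + rho E y z) : ℤ) : ℝ) := by
    exact_mod_cast rho_four E x y z w
  push_cast at h3
  have h4 : max ((rho E x y : ℝ) + rho E z w) (rho E x w + rho E y z) ≤
      max (cdist (XX E) x y + cdist (XX E) z w) (cdist (XX E) x w + cdist (XX E) y z) :=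
    max_le_max (add_le_add (cdist_ge E _ _) (cdist_ge E _ _))
      (add_le_add (cdist_ge E _ _) (cdist_ge E _ _))
  linarith

/-- the Gromov product in the tree -/
noncomputable def pp (g h : ZwrZ) : ℤ := nn E 1 g + nn E 1 h - nn E g h

theorem gprod_ge (g h : ZwrZ) : (pp E g h : ℝ) - 1 ≤ gprod (XX E) g h := by
  have h1 := cdist_ge E 1 g
  have h2 := cdist_ge E 1 h
  have h3 := cdist_le E g h
  unfold rho at h1 h2 h3
  unfold gprod pp
  rw [ZwrZ.one_pos] at h1 h2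
  push_cast at h1 h2 h3 ⊢
  linarith

theorem gprod_le (g h : ZwrZ) : gprod (XX E) g h ≤ pp E g h + 1 := by
  have h1 := cdist_le E 1 g
  have h2 := cdist_le E 1 h
  have h3 := cdist_ge E g h
  unfold rho at h1 h2 h3
  unfold gprod pp
  rw [ZwrZ.one_pos] at h1 h2
  push_cast at h1 h2 h3 ⊢
  linarith

theorem exists_nat_ge_add (C : ℝ) : ∃ n : ℕ, C + 1 ≤ n := exists_nat_ge _

theorem of_pp {x y : ℕ → ZwrZ} (h : ∀ C : ℤ, ∃ N : ℕ, ∀ m ≥ N, ∀ n ≥ N, C ≤ pp E (x m) (y n)) :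
    ∀ C : ℝ, ∃ N : ℕ, ∀ m ≥ N, ∀ n ≥ N, C ≤ gprod (XX E) (x m) (y n) := by
  intro C
  obtain ⟨k, hk⟩ := exists_nat_ge_add C
  obtain ⟨N, hN⟩ := h k
  refine ⟨N, fun m hm n hn => ?_⟩
  have h1 := hN m hm n hn
  have h2 : ((k : ℤ) : ℝ) ≤ (pp E (x m) (y n) : ℝ) := by exact_mod_cast h1
  have h3 := gprod_ge E (x m) (y n)
  push_cast at h2
  linarith

/-- translates of the sequence `t^{-n}` -/
theorem down (a b : ZwrZ) : ∀ C : ℤ, ∃ N : ℕ, ∀ m ≥ N, ∀ n ≥ N,
    C ≤ pp E (a * ⟨0, -(m : ℤ)⟩) (b * ⟨0, -(n : ℤ)⟩) := by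
  intro C
  obtain ⟨N0, hN0, hN⟩ := QN_exists E (a.lamp - b.lamp)
  refine ⟨(C + N0).natAbs + a.pos.natAbs + b.pos.natAbs, fun m hm n hn => ?_⟩
  have la : (a * ⟨0, -(m : ℤ)⟩).lamp = a.lamp := by rw [mul_lamp, shift_z, add_zero]
  have lb : (b * ⟨0, -(n : ℤ)⟩).lamp = b.lamp := by rw [mul_lamp, shift_z, add_zero]
  have pa : (a * ⟨0, -(m : ℤ)⟩).pos = a.pos + -m := rfl
  have pb : (b * ⟨0, -(n : ℤ)⟩).pos = b.pos + -n := rfl
  have h1 := nn_self_le' E 1 (a * ⟨0, -(m : ℤ)⟩)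
  have h2 := nn_self_le' E 1 (b * ⟨0, -(n : ℤ)⟩)
  have h3 : nn E (a * ⟨0, -(m : ℤ)⟩) (b * ⟨0, -(n : ℤ)⟩) ≤
      max N0 (max (-(a.pos + -m)) (-(b.pos + -n))) := by
    apply nn_le
    refine ⟨?_, ?_, ?_⟩
    · rw [pa]; exact (le_max_left _ _).trans (le_max_right _ _)
    · rw [pb]; exact (le_max_right _ _).trans (le_max_right _ _)
    · rw [la, lb]; exact hN.mono (le_max_left _ _)
  rw [pa] at h1
  rw [pb] at h2
  unfold pp
  omega

/-- the sequence `t^{-n}` -/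
noncomputable def wseq : InfSeq (XX E) := ⟨fun n => ⟨0, -(n : ℤ)⟩, by
  apply of_pp
  have := down E 1 1
  simpa using this⟩

theorem down_one (g : ZwrZ) : ∀ C : ℤ, ∃ N : ℕ, ∀ m ≥ N, ∀ n ≥ N,
    C ≤ pp E (g * ⟨0, -(m : ℤ)⟩) ⟨0, -(n : ℤ)⟩ := by
  intro C
  obtain ⟨N, hN⟩ := down E g 1 C
  refine ⟨N, fun m hm n hn => ?_⟩
  have h := hN m hm n hn
  have h1 : (1 : ZwrZ) * ⟨0, -(n : ℤ)⟩ = ⟨0, -(n : ℤ)⟩ := one_mul _
  rw [h1] at h
  exact h

theorem wseq_fix (g : ZwrZ) : Asymp (XX E) (transl (XX_gen E) g (wseq E)) (wseq E) :=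
  of_pp E (x := fun n => g * ⟨0, -(n : ℤ)⟩) (y := fun n => ⟨0, -(n : ℤ)⟩) (down_one E g)

theorem up (c : ℤ →₀ ℤ) : ∀ C : ℤ, ∃ N : ℕ, ∀ m ≥ N, ∀ n ≥ N,
    C ≤ pp E ⟨c, m⟩ ⟨c, n⟩ := by
  intro C
  refine ⟨C.natAbs, fun m hm n hn => ?_⟩
  have h1 : -(1 : ZwrZ).pos ≤ nn E 1 ⟨c, m⟩ := nn_self_le E _ _
  have h2 : -(1 : ZwrZ).pos ≤ nn E 1 ⟨c, n⟩ := nn_self_le E _ _
  rw [ZwrZ.one_pos, neg_zero] at h1 h2
  have h3 : nn E (⟨c, m⟩ : ZwrZ) ⟨c, n⟩ ≤ max (-(m : ℤ)) (-(n : ℤ)) := by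
    apply nn_le
    refine ⟨le_max_left _ _, le_max_right _ _, ?_⟩
    have : (⟨c, m⟩ : ZwrZ).lamp - (⟨c, n⟩ : ZwrZ).lamp = 0 := sub_self c
    rw [this]
    exact QN_zero E _
  unfold pp
  omega

/-- the sequence `c t^n` -/
noncomputable def yseq (c : ℤ →₀ ℤ) : InfSeq (XX E) := ⟨fun n => ⟨c, n⟩, of_pp E (up E c)⟩

theorem yseq_inj {c d : ℤ →₀ ℤ} (h : Asymp (XX E) (yseq E c) (yseq E d)) : c = d := by
  by_contra hcd
  have h1 : c - d ≠ 0 := sub_ne_zero.2 hcd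
  obtain ⟨i, hi⟩ : ∃ i, (c - d) i ≠ 0 := by
    by_contra h2
    push Not at h2
    exact h1 (Finsupp.ext h2)
  obtain ⟨M, hM⟩ := E.unb ((c - d) i).natAbs
  obtain ⟨Nc, hc0, hNc⟩ := QN_exists E c
  obtain ⟨Nd, hd0, hNd⟩ := QN_exists E d
  obtain ⟨N, hN⟩ := h ((Nc + Nd + i + M : ℤ) + 2)
  have h2 := hN N le_rfl N le_rfl
  have h3 := gprod_le E ((yseq E c).1 N) ((yseq E d).1 N)
  have h4 : ((Nc + Nd + i + M + 1 : ℤ) : ℝ) ≤ (pp E ((yseq E c).1 N) ((yseq E d).1 N) : ℝ) := by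
    push_cast at h2 ⊢
    linarith
  have h5 : Nc + Nd + i + M + 1 ≤ pp E ((yseq E c).1 N) ((yseq E d).1 N) := by exact_mod_cast h4
  change Nc + Nd + i + M + 1 ≤ pp E ⟨c, N⟩ ⟨d, N⟩ at h5
  have h6 : nn E 1 ⟨c, N⟩ ≤ Nc := by
    apply nn_le
    refine ⟨by rw [ZwrZ.one_pos]; linarith, ?_, ?_⟩
    · change -(N : ℤ) ≤ Nc
      linarith [Int.natCast_nonneg N]
    · change QN E Nc ((1 : ZwrZ).lamp - c)
      rw [one_lamp, zero_sub]
      exact hNc.neg
  have h7 : nn E 1 ⟨d, N⟩ ≤ Nd := by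
    apply nn_le
    refine ⟨by rw [ZwrZ.one_pos]; linarith, ?_, ?_⟩
    · change -(N : ℤ) ≤ Nd
      linarith [Int.natCast_nonneg N]
    · change QN E Nd ((1 : ZwrZ).lamp - d)
      rw [one_lamp, zero_sub]
      exact hNd.neg
  have h8 : -i - M ≤ nn E (⟨c, N⟩ : ZwrZ) ⟨d, N⟩ := by
    by_contra h9
    push Not at h9
    have h10 := (nn_mem E (⟨c, N⟩ : ZwrZ) ⟨d, N⟩).2.2 i
    have h11 : M ≤ -i - nn E (⟨c, N⟩ : ZwrZ) ⟨d, N⟩ := by linarith
    have h12 := E.mono h11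
    change (2 : ℤ) ^ _ ∣ (c - d) i at h10
    have h13 := Int.le_of_dvd (by positivity) ((dvd_abs _ _).2 h10)
    have h14 : ((2 : ℤ) ^ ((c - d) i).natAbs) ≤ 2 ^ E.e (-i - nn E (⟨c, N⟩ : ZwrZ) ⟨d, N⟩) :=
      pow_le_pow_right₀ (by norm_num) (by omega)
    have h15 : (((c - d) i).natAbs : ℤ) < 2 ^ ((c - d) i).natAbs := by
      exact_mod_cast Nat.lt_two_pow_self
    rw [Int.abs_eq_natAbs] at h13
    linarith
  unfold pp at h5
  linarith

theorem XX_qp : IsQuasiParabolic (XX E) := by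
  refine qp_of (XX_gen E) (XX_hyp E) (wseq E) (wseq_fix E)
    (fun j => yseq E (Finsupp.single 0 (j : ℤ))) ?_
  intro i j h
  have h1 := yseq_inj E h
  have h2 := DFunLike.congr_fun h1 0
  simpa using h2

/-- the structure given by the exponents -/
def st : QPSet ZwrZ := ⟨XX E, XX_gen E, XX_hyp E, XX_qp E⟩

theorem st_le {E F : Ex} (h : ∀ m, E.e m ≤ F.e m) : st E ≤ st F := by
  refine ⟨1, fun x hx => len_mem (Or.inl ?_)⟩
  rcases hx with h1 | ⟨h1, h2⟩
  · exact Or.inl h1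
  · exact Or.inr ⟨h1, fun i => (pow_dvd_pow 2 (h _)).trans (h2 i)⟩

theorem not_st_le {E F : Ex} (h : ∀ C : ℕ, ∃ m : ℤ, E.e m < F.e (m - C)) : ¬ st F ≤ st E := by
  rintro ⟨C, hC⟩
  obtain ⟨m, hm⟩ := h C
  have h1 : base (Finsupp.single (-m) ((2 : ℤ) ^ E.e m)) ∈ XX E := by
    right
    refine ⟨rfl, fun i => ?_⟩
    change _ ∣ (Finsupp.single (-m) ((2 : ℤ) ^ E.e m)) i
    by_cases hi : i = -m
    · subst hi
      rw [Finsupp.single_eq_same, neg_neg, sub_zero]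
    · rw [Finsupp.single_eq_of_ne (by simpa using hi)]
      exact dvd_zero _
  have h2 := hC _ h1
  have h3 := rho_le_len F (base (Finsupp.single (-m) ((2 : ℤ) ^ E.e m)))
  unfold rho at h3
  rw [ZwrZ.one_pos] at h3
  have h4 : (base (Finsupp.single (-m) ((2 : ℤ) ^ E.e m))).pos = 0 := rfl
  rw [h4] at h3
  have h5 : nn F 1 (base (Finsupp.single (-m) ((2 : ℤ) ^ E.e m))) ≤ C := by
    have h6 : ((len (XX F) (base (Finsupp.single (-m) ((2 : ℤ) ^ E.e m))) : ℕ) : ℤ) ≤ C := by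
      exact_mod_cast h2
    have h7 := nn_self_le F 1 (base (Finsupp.single (-m) ((2 : ℤ) ^ E.e m)))
    rw [ZwrZ.one_pos] at h7
    linarith
  have h6 := (nn_mem F 1 (base (Finsupp.single (-m) ((2 : ℤ) ^ E.e m)))).2.2.mono h5
  rw [one_lamp, zero_sub] at h6
  have h7' := h6.neg
  rw [neg_neg] at h7'
  have h7 := h7' (-m)
  change _ ∣ (Finsupp.single (-m) ((2 : ℤ) ^ E.e m)) (-m) at h7
  rw [Finsupp.single_eq_same, neg_neg] at h7
  have h8 := (Nat.pow_dvd_pow_iff_le_right (x := 2) (by norm_num)).1 (by exact_mod_cast h7)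
  omega

/-- the exponents `⌊s m⌋` -/
noncomputable def exs (s : ℝ) (hs : 0 < s) : Ex where
  e m := ⌊s * m⌋₊
  mono m n h := Nat.floor_le_floor (mul_le_mul_of_nonneg_left (by exact_mod_cast h) hs.le)
  zero m h := by
    apply Nat.floor_of_nonpos
    apply mul_nonpos_of_nonneg_of_nonpos hs.le
    exact_mod_cast h
  unb B := by
    obtain ⟨n, hn⟩ := exists_nat_ge ((B + 1 : ℝ) / s)
    refine ⟨n, ?_⟩
    rw [div_le_iff₀ hs] at hn
    have : B + 1 ≤ ⌊s * ((n : ℤ) : ℝ)⌋₊ := by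
      apply Nat.le_floor
      push_cast
      linarith
    omega

theorem exs_strict {s s' : ℝ} (hs : 0 < s) (hs' : 0 < s') (h : s < s') (C : ℕ) :
    ∃ m : ℤ, (exs s hs).e m < (exs s' hs').e (m - C) := by
  obtain ⟨n, hn⟩ := exists_nat_ge ((s' * C + 1) / (s' - s))
  have h0 : 0 < s' - s := by linarith
  rw [div_le_iff₀ h0] at hn
  refine ⟨n, ?_⟩
  change ⌊s * ((n : ℤ) : ℝ)⌋₊ < ⌊s' * (((n : ℤ) - (C : ℤ) : ℤ) : ℝ)⌋₊
  push_cast
  have h1 : (⌊s * (n : ℝ)⌋₊ : ℝ) ≤ s * n := Nat.floor_le (by positivity)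
  have h2 : ⌊s * (n : ℝ)⌋₊ + 1 ≤ ⌊s' * ((n : ℝ) - C)⌋₊ := by
    apply Nat.le_floor
    push_cast
    nlinarith
  omega

/-- the chain -/
noncomputable def chain (r : ℝ) : HQP ZwrZ :=
  toAntisymmetrization (· ≤ ·) (st (exs (Real.exp r) (Real.exp_pos r)))

theorem chain_strict : StrictMono chain := by
  intro r r' h
  have h0 : Real.exp r < Real.exp r' := Real.exp_lt_exp.2 h
  unfold chain
  rw [toAntisymmetrization_lt_toAntisymmetrization_iff]
  refine lt_of_le_not_ge (st_le ?_) (not_st_le ?_)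
  · intro m
    rcases le_total m 0 with hm | hm
    · rw [(exs _ (Real.exp_pos r)).zero m hm]
      exact Nat.zero_le _
    · exact Nat.floor_le_floor (mul_le_mul_of_nonneg_right h0.le (by exact_mod_cast hm))
  · exact exs_strict _ _ h0

end Pool.Agent.V7H56.QP
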